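import Pool.Agent.Lib.KQ.W0
import Pool.Agent.Lib.KD41.H

/-!
# Fourier decay of the Syracuse law for a general odd modulus, deep starting points

For every `δ > 0` there is `h` with `S h δ`.
-/

set_option autoImplicit false

namespace Pool.Agent.Lib.KQ

open Finset

section Marks

/-- majorant with a complete pair ahead, without the gain at the current point -/
noncomputable def U0 (Q : ℕ) (u0 : ℤ) (r B : ℕ) : ℕ → ℕ → ℕ → ℝ
  | 0, _, _ => 1
  | n + 1, j, l => ∑ b ∈ Icc 2 B, Pb b * G Q u0 r B n (j + 1) (l + b)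

/-- majorant inside an incomplete pair -/
noncomputable def U1 (Q : ℕ) (u0 : ℤ) (r B : ℕ) : ℕ → ℕ → ℕ → ℝ
  | 0, _, _ => 1
  | n + 1, j, l => ∑ i ∈ Icc 1 B, (1 / 2 : ℝ) ^ i * G Q u0 r B n (j + 1) (l + i)

variable (Q : ℕ) (u0 : ℤ) (r B : ℕ)

theorem G_le_U0 (n j l : ℕ) : G Q u0 r B n j l ≤ U0 Q u0 r B n j l := by
  cases n with
  | zero => simp [G, U0]
  | succ n => exact G_succ_le Q u0 r B n j l

theorem U0_nonneg (n j l : ℕ) : 0 ≤ U0 Q u0 r B n j l :=
  (G_nonneg Q u0 r B n j l).trans (G_le_U0 Q u0 r B n j l)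

theorem U0_le_one (n j l : ℕ) : U0 Q u0 r B n j l ≤ 1 := by
  cases n with
  | zero => simp [U0]
  | succ n =>
    rw [U0]
    calc _ ≤ ∑ b ∈ Finset.Icc 2 B, Pb b * 1 := by
          apply Finset.sum_le_sum
          intro b hb
          rw [Finset.mem_Icc] at hb
          exact mul_le_mul_of_nonneg_left (G_le_one Q u0 r B n _ _) (Pb_nonneg (by omega))
      _ ≤ 1 := by simpa using sum_Pb_le B

theorem sum_half (B : ℕ) : ∑ i ∈ Icc 1 B, (1 / 2 : ℝ) ^ i = 1 - (1 / 2 : ℝ) ^ B := by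
  induction B with
  | zero => simp
  | succ B ih =>
    rw [Finset.sum_Icc_succ_top (by omega), ih, pow_succ]
    ring

theorem U1_nonneg (n j l : ℕ) : 0 ≤ U1 Q u0 r B n j l := by
  cases n with
  | zero => simp [U1]
  | succ n =>
    rw [U1]
    exact Finset.sum_nonneg fun i _ => mul_nonneg (by positivity) (G_nonneg Q u0 r B n _ _)

theorem U1_le_one (n j l : ℕ) : U1 Q u0 r B n j l ≤ 1 := by
  cases n with
  | zero => simp [U1]
  | succ n =>
    rw [U1]
    calc _ ≤ ∑ i ∈ Finset.Icc 1 B, (1 / 2 : ℝ) ^ i * 1 := by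
          apply Finset.sum_le_sum
          intro b hb
          exact mul_le_mul_of_nonneg_left (G_le_one Q u0 r B n _ _) (by positivity)
      _ = 1 - (1 / 2 : ℝ) ^ B := by simpa using sum_half B
      _ ≤ 1 := by
          have : (0 : ℝ) ≤ (1 / 2) ^ B := by positivity
          linarith

theorem U0_id (g : ℕ → ℝ) (l B : ℕ) (hB : 1 ≤ B) :
    (∑ b ∈ Icc 2 B, Pb b * g (l + 1 + b) + ∑ i ∈ Icc 1 B, (1 / 2 : ℝ) ^ i * g (l + 1 + i)) / 2 =
      ∑ b ∈ Icc 2 B, Pb b * g (l + b) + (Pb B + (1 / 2 : ℝ) ^ B) / 2 * g (l + 1 + B) := by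
  induction B, hB using Nat.le_induction with
  | base => simp [Pb]; ring
  | succ B hB ih =>
    rw [Finset.sum_Icc_succ_top (by omega), Finset.sum_Icc_succ_top (by omega),
      Finset.sum_Icc_succ_top (by omega)]
    have e : Pb (B + 1) = (Pb B + (1 / 2 : ℝ) ^ B) / 2 := by
      unfold Pb
      push_cast
      rw [one_div, inv_pow, pow_succ]
      field_simp
      ring
    rw [show l + (B + 1) = l + 1 + B by ring]
    rw [show l + 1 + (B + 1) = l + 1 + (B + 1) from rfl]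
    linear_combination ih - g (l + 1 + B) * e

theorem U1_id (g : ℕ → ℝ) (l B : ℕ) :
    (∑ i ∈ Icc 1 B, (1 / 2 : ℝ) ^ i * g (l + 1 + i) + g (l + 1)) / 2 =
      ∑ i ∈ Icc 1 B, (1 / 2 : ℝ) ^ i * g (l + i) + (1 / 2 : ℝ) ^ (B + 1) * g (l + 1 + B) := by
  induction B with
  | zero => simp; ring
  | succ B ih =>
    rw [Finset.sum_Icc_succ_top (by omega), Finset.sum_Icc_succ_top (by omega)]
    rw [show l + (B + 1) = l + 1 + B by ring]
    have e : (1 / 2 : ℝ) ^ (B + 1 + 1) = (1 / 2 : ℝ) ^ (B + 1) / 2 := by rw [pow_succ]; ring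
    rw [e]
    linear_combination ih

theorem U0_step (hB : 1 ≤ B) (n j l : ℕ) :
    U0 Q u0 r B n j l ≤ (U0 Q u0 r B n j (l + 1) + U1 Q u0 r B n j (l + 1)) / 2 := by
  cases n with
  | zero => simp [U0, U1]
  | succ n =>
    rw [U0, U0, U1, U0_id (fun x => G Q u0 r B n (j + 1) x) l B hB]
    have h1 : 0 ≤ (Pb B + (1 / 2 : ℝ) ^ B) / 2 * G Q u0 r B n (j + 1) (l + 1 + B) := by
      apply mul_nonneg _ (G_nonneg Q u0 r B n _ _)
      have := Pb_nonneg hB
      positivity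
    linarith

theorem U1_step (n j l : ℕ) :
    U1 Q u0 r B n j l ≤ (U1 Q u0 r B n j (l + 1) + U0 Q u0 r B (n - 1) (j + 1) (l + 1)) / 2 := by
  cases n with
  | zero => simp [U0, U1]
  | succ n =>
    rw [U1, U1, Nat.add_sub_cancel]
    have h0 := U1_id (fun x => G Q u0 r B n (j + 1) x) l B
    have h1 : 0 ≤ (1 / 2 : ℝ) ^ (B + 1) * G Q u0 r B n (j + 1) (l + 1 + B) :=
      mul_nonneg (by positivity) (G_nonneg Q u0 r B n _ _)
    have h2 := G_le_U0 Q u0 r B n (j + 1) (l + 1)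
    linarith

/-- after `k` marks: `k / 2` complete pairs -/
noncomputable def UU (n k l : ℕ) : ℝ :=
  if k % 2 = 0 then U0 Q u0 r B (n - k / 2) (k / 2) l else U1 Q u0 r B (n - k / 2) (k / 2) l

theorem UU_nonneg (n k l : ℕ) : 0 ≤ UU Q u0 r B n k l := by
  unfold UU
  split_ifs
  · exact U0_nonneg _ _ _ _ _ _ _
  · exact U1_nonneg _ _ _ _ _ _ _

theorem UU_le_one (n k l : ℕ) : UU Q u0 r B n k l ≤ 1 := by
  unfold UU
  split_ifs
  · exact U0_le_one _ _ _ _ _ _ _
  · exact U1_le_one _ _ _ _ _ _ _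

theorem UU_step (hB : 1 ≤ B) (n k l : ℕ) :
    UU Q u0 r B n k l ≤ (UU Q u0 r B n k (l + 1) + UU Q u0 r B n (k + 1) (l + 1)) / 2 := by
  unfold UU
  rcases Nat.even_or_odd' k with ⟨m, rfl | rfl⟩
  · have e1 : 2 * m % 2 = 0 := by omega
    have e2 : (2 * m + 1) % 2 ≠ 0 := by omega
    have e3 : 2 * m / 2 = m := by omega
    have e4 : (2 * m + 1) / 2 = m := by omega
    rw [if_pos e1, if_pos e1, if_neg e2, e3, e4]
    exact U0_step Q u0 r B hB _ _ _
  · have e1 : (2 * m + 1) % 2 ≠ 0 := by omega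
    have e2 : (2 * m + 1 + 1) % 2 = 0 := by omega
    have e3 : (2 * m + 1) / 2 = m := by omega
    have e4 : (2 * m + 1 + 1) / 2 = m + 1 := by omega
    rw [if_neg e1, if_neg e1, if_pos e2, e3, e4, show n - (m + 1) = n - m - 1 by omega]
    exact U1_step Q u0 r B _ _ _

theorem pascal_sum (V : ℕ) (f : ℕ → ℝ) :
    ∑ i ∈ range (V + 2), ((V + 1).choose i : ℝ) * f i =
      ∑ i ∈ range (V + 1), (V.choose i : ℝ) * f i + ∑ i ∈ range (V + 1), (V.choose i : ℝ) * f (i + 1) := by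
  rw [Finset.sum_range_succ']
  have h1 : ∑ i ∈ range (V + 1), ((V + 1).choose (i + 1) : ℝ) * f (i + 1) =
      ∑ i ∈ range (V + 1), (V.choose i : ℝ) * f (i + 1) +
        ∑ i ∈ range (V + 1), (V.choose (i + 1) : ℝ) * f (i + 1) := by
    rw [← Finset.sum_add_distrib]
    apply Finset.sum_congr rfl
    intro i _
    rw [Nat.choose_succ_succ]
    push_cast
    ring
  have h2 : ∑ i ∈ range (V + 1), (V.choose (i + 1) : ℝ) * f (i + 1) + (V.choose 0 : ℝ) * f 0 =
      ∑ i ∈ range (V + 1), (V.choose i : ℝ) * f i := by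
    rw [← Finset.sum_range_succ' (fun i => (V.choose i : ℝ) * f i) (V + 1), Finset.sum_range_succ]
    simp
  rw [h1]
  simp only [Nat.choose_zero_right, Nat.cast_one, one_mul] at h2 ⊢
  linarith

/-- the binomial law of the number of marks -/
theorem marks (hB : 1 ≤ B) (n : ℕ) : ∀ V k l : ℕ,
    UU Q u0 r B n k l ≤ ∑ i ∈ range (V + 1), (V.choose i : ℝ) * ((1 / 2) ^ V * UU Q u0 r B n (k + i) (l + V))
  | 0, k, l => by simp
  | V + 1, k, l => by
    refine (UU_step Q u0 r B hB n k l).trans ?_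
    have h1 := marks hB n V k (l + 1)
    have h2 := marks hB n V (k + 1) (l + 1)
    rw [pascal_sum V (fun i => (1 / 2) ^ (V + 1) * UU Q u0 r B n (k + i) (l + (V + 1)))]
    have e1 : ∑ i ∈ range (V + 1), (V.choose i : ℝ) *
        ((1 / 2) ^ (V + 1) * UU Q u0 r B n (k + i) (l + (V + 1))) =
        (∑ i ∈ range (V + 1), (V.choose i : ℝ) * ((1 / 2) ^ V * UU Q u0 r B n (k + i) (l + 1 + V))) / 2 := by
      rw [Finset.sum_div]
      apply Finset.sum_congr rfl
      intro i _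
      rw [show l + (V + 1) = l + 1 + V by ring, pow_succ]
      ring
    have e2 : ∑ i ∈ range (V + 1), (V.choose i : ℝ) *
        ((1 / 2) ^ (V + 1) * UU Q u0 r B n (k + (i + 1)) (l + (V + 1))) =
        (∑ i ∈ range (V + 1), (V.choose i : ℝ) * ((1 / 2) ^ V * UU Q u0 r B n (k + 1 + i) (l + 1 + V))) / 2 := by
      rw [Finset.sum_div]
      apply Finset.sum_congr rfl
      intro i _
      rw [show l + (V + 1) = l + 1 + V by ring, show k + (i + 1) = k + 1 + i by ring, pow_succ]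
      ring
    rw [e1, e2]
    linarith

/-- tail of the binomial law -/
theorem binom_tail (V : ℕ) :
    ∑ i ∈ (range (V + 1)).filter (fun i => 11 * V < 20 * i), (V.choose i : ℝ) * (1 / 2) ^ V ≤
      (996 / 1000 : ℝ) ^ V := by
  have h1 : ∀ i ∈ (range (V + 1)).filter (fun i => 11 * V < 20 * i),
      (V.choose i : ℝ) * (1 / 2) ^ V ≤
        ((V.choose i : ℝ) * ((101 / 100 : ℝ) ^ 20) ^ i) * ((1 / 2) ^ V / ((101 / 100) ^ 11) ^ V) := by
    intro i hi
    rw [Finset.mem_filter] at hi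
    have h2 : ((101 / 100 : ℝ) ^ 11) ^ V ≤ ((101 / 100 : ℝ) ^ 20) ^ i := by
      rw [← pow_mul, ← pow_mul]
      exact pow_le_pow_right₀ (by norm_num) hi.2.le
    have h3 : (0 : ℝ) < ((101 / 100 : ℝ) ^ 11) ^ V := by positivity
    have h4 : (0 : ℝ) ≤ (V.choose i : ℝ) * (1 / 2) ^ V := by positivity
    calc (V.choose i : ℝ) * (1 / 2) ^ V = (V.choose i : ℝ) * (1 / 2) ^ V * 1 := by ring
      _ ≤ (V.choose i : ℝ) * (1 / 2) ^ V * (((101 / 100 : ℝ) ^ 20) ^ i / ((101 / 100 : ℝ) ^ 11) ^ V) := by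
          apply mul_le_mul_of_nonneg_left _ h4
          rw [le_div_iff₀ h3]
          linarith
      _ = _ := by ring
  have h5 : ∑ i ∈ range (V + 1), ((V.choose i : ℝ) * ((101 / 100 : ℝ) ^ 20) ^ i) =
      ((101 / 100 : ℝ) ^ 20 + 1) ^ V := by
    rw [add_pow]
    apply Finset.sum_congr rfl
    intro i _
    rw [one_pow]
    ring
  calc _ ≤ ∑ i ∈ (range (V + 1)).filter (fun i => 11 * V < 20 * i),
        ((V.choose i : ℝ) * ((101 / 100 : ℝ) ^ 20) ^ i) * ((1 / 2) ^ V / ((101 / 100) ^ 11) ^ V) :=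
        Finset.sum_le_sum h1
    _ ≤ ∑ i ∈ range (V + 1),
        ((V.choose i : ℝ) * ((101 / 100 : ℝ) ^ 20) ^ i) * ((1 / 2) ^ V / ((101 / 100) ^ 11) ^ V) := by
        apply Finset.sum_le_sum_of_subset_of_nonneg (Finset.filter_subset _ _)
        intro i _ _
        positivity
    _ = (((101 / 100 : ℝ) ^ 20 + 1) * (1 / 2) / (101 / 100) ^ 11) ^ V := by
        have h6 : ∀ a b c : ℝ, a ^ V * (b ^ V / c ^ V) = (a * b / c) ^ V := by
          intro a b c
          rw [div_pow, mul_pow]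
          ring
        rw [← Finset.sum_mul, h5, h6]
    _ ≤ _ := by
        apply pow_le_pow_left₀ (by positivity)
        norm_num

end Marks

open KDF

theorem Pb_eq (b : ℕ) : ((b : ℝ) - 1) * (1 / 2) ^ b = Pb b := by
  unfold Pb
  rw [one_div, inv_pow, ← div_eq_mul_inv]

theorem Hc_nonneg (bmax : ℕ) (l : ℕ) (kap : ℤ) (s : ℕ) : 0 ≤ H c0 bmax l kap s :=
  KDF.H_nonneg c0_lt_one.le bmax l kap s

theorem Hc_le_one (bmax : ℕ) (l : ℕ) (kap : ℤ) (s : ℕ) : H c0 bmax l kap s ≤ 1 :=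
  KDF.H_le_one c0_pos.le c0_lt_one.le bmax l kap s

/-- a black point beyond the crossing is dyadically black -/
theorem Black_DB {Q : ℕ} (hQ : Odd Q) {c kap : ℤ} {d r j s : ℕ}
    (hc : 10 * |c| ≤ Q * 3 ^ (r - 2 * j))
    (hk : (2 ^ s : ℤ) ∣ Q * 3 ^ (r - 2 * j) * kap + c)
    (hb : Black Q (2 ^ d * c) r j (d + s)) : DB kap s := by
  obtain ⟨u, h1, h2⟩ := hb
  have hQpos : (0 : ℤ) < Q := by exact_mod_cast hQ.pos
  set M : ℤ := (Q : ℤ) * 3 ^ (r - 2 * j) with hM
  have hMpos : 0 < M := by positivity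
  have e : 2 ^ (d + s) * u - 2 ^ d * c = 2 ^ d * (2 ^ s * u - c) := by ring
  rw [e, hM, Q3_dvd_two_pow_mul_iff hQ, ← hM] at h2
  obtain ⟨z, hz⟩ := h2
  have hz' : 2 ^ s * u - c = M * z := hz
  refine ⟨z, ?_, ?_⟩
  · have h3 : M * |z| ≤ 2 ^ s * |u| + |c| := by
      have h4 : M * |z| = |M * z| := by rw [abs_mul, abs_of_pos hMpos]
      rw [h4, ← hz']
      calc |2 ^ s * u - c| ≤ |2 ^ s * u| + |c| := abs_sub _ _
        _ = 2 ^ s * |u| + |c| := by rw [abs_mul, abs_of_pos (by positivity : (0 : ℤ) < 2 ^ s)]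
    have hs : (1 : ℤ) ≤ 2 ^ s := one_le_pow₀ (by norm_num)
    have h5 : 2 ^ s * (100 * |u|) ≤ 2 ^ s * (M - 1) :=
      mul_le_mul_of_nonneg_left (by omega) (by positivity)
    have h6 : 100 * (M * |z|) < M * (2 ^ s + 10) := by
      nlinarith
    have h7 : 100 * |z| < 2 ^ s + 10 := by
      by_contra hcon
      push Not at hcon
      have := mul_le_mul_of_nonneg_left hcon hMpos.le
      nlinarith
    omega
  · have h3 : (2 ^ s : ℤ) ∣ M * (z - kap) := by
      have h4 : M * (z - kap) = 2 ^ s * u - (M * kap + c) := by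
        linear_combination -hz'
      rw [h4]
      exact dvd_sub (Dvd.intro _ rfl) hk
    exact ((cop_two hQ (r - 2 * j) s).symm).dvd_of_dvd_mul_left h3

/-- cut a weighted sum at `bmax` -/
theorem split_le (w : ℕ → ℝ) (a0 : ℕ) (hw : ∀ b, a0 ≤ b → 0 ≤ w b) (B bmax : ℕ) {T a : ℝ}
    (ha0 : a0 ≤ bmax + 1)
    (htail : ∑ b ∈ Icc (bmax + 1) B, w b ≤ T) (hone : ∑ b ∈ Icc a0 bmax, w b ≤ 1) (ha : 0 ≤ a)
    {x y : ℕ → ℝ} (hx : ∀ b, x b ≤ 1) (hy : ∀ b, 0 ≤ y b)
    (hxy : ∀ b, a0 ≤ b → b ≤ bmax → x b ≤ y b + a) :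
    ∑ b ∈ Icc a0 B, w b * x b ≤ ∑ b ∈ Icc a0 bmax, w b * y b + a + T := by
  have h1 : ∑ b ∈ Icc a0 B, w b * x b ≤
      ∑ b ∈ Icc a0 bmax, w b * (y b + a) + ∑ b ∈ Icc (bmax + 1) B, w b := by
    rw [← Finset.sum_filter_add_sum_filter_not (Icc a0 B) (fun b => b ≤ bmax)]
    apply add_le_add
    · calc ∑ b ∈ (Icc a0 B).filter (fun b => b ≤ bmax), w b * x b ≤
          ∑ b ∈ (Icc a0 B).filter (fun b => b ≤ bmax), w b * (y b + a) := by
            apply Finset.sum_le_sum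
            intro b hb
            rw [Finset.mem_filter, Finset.mem_Icc] at hb
            exact mul_le_mul_of_nonneg_left (hxy b hb.1.1 hb.2) (hw b hb.1.1)
        _ ≤ _ := by
            apply Finset.sum_le_sum_of_subset_of_nonneg
            · intro b hb
              rw [Finset.mem_filter, Finset.mem_Icc] at hb
              rw [Finset.mem_Icc]
              exact ⟨hb.1.1, hb.2⟩
            · intro b hb _
              rw [Finset.mem_Icc] at hb
              exact mul_nonneg (hw b hb.1) (add_nonneg (hy b) ha)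
    · calc ∑ b ∈ (Icc a0 B).filter (fun b => ¬ b ≤ bmax), w b * x b ≤
          ∑ b ∈ (Icc a0 B).filter (fun b => ¬ b ≤ bmax), w b := by
            apply Finset.sum_le_sum
            intro b hb
            rw [Finset.mem_filter, Finset.mem_Icc] at hb
            calc w b * x b ≤ w b * 1 := mul_le_mul_of_nonneg_left (hx b) (hw b hb.1.1)
              _ = w b := mul_one _
        _ ≤ _ := by
            apply Finset.sum_le_sum_of_subset_of_nonneg
            · intro b hb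
              rw [Finset.mem_filter, Finset.mem_Icc] at hb
              rw [Finset.mem_Icc]
              omega
            · intro b hb _
              rw [Finset.mem_Icc] at hb
              exact hw b (by omega)
  have h2 : ∑ b ∈ Icc a0 bmax, w b * (y b + a) ≤ ∑ b ∈ Icc a0 bmax, w b * y b + a := by
    have h3 : ∑ b ∈ Icc a0 bmax, w b * (y b + a) =
        ∑ b ∈ Icc a0 bmax, w b * y b + (∑ b ∈ Icc a0 bmax, w b) * a := by
      rw [Finset.sum_mul, ← Finset.sum_add_distrib]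
      apply Finset.sum_congr rfl
      intro b _
      ring
    rw [h3]
    nlinarith
  linarith

theorem Pb_tail (bmax B : ℕ) (h : 1 ≤ bmax) :
    ∑ b ∈ Icc (bmax + 1) B, Pb b ≤ ((bmax : ℝ) + 1) / 2 ^ bmax := by
  rcases Nat.lt_or_ge B bmax with hB | hB
  · rw [Finset.Icc_eq_empty (by omega), Finset.sum_empty]
    positivity
  · have h1 := sum_Pb B (by omega)
    have h2 := sum_Pb bmax h
    have h3 : ∑ b ∈ Icc 2 B, Pb b = ∑ b ∈ Icc 2 bmax, Pb b + ∑ b ∈ Icc (bmax + 1) B, Pb b := by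
      rw [← Finset.sum_union]
      · congr 1
        ext b
        simp only [Finset.mem_union, Finset.mem_Icc]
        omega
      · rw [Finset.disjoint_left]
        intro b hb hb'
        rw [Finset.mem_Icc] at hb hb'
        omega
    have h4 : (0 : ℝ) ≤ ((B : ℝ) + 1) / 2 ^ B := by positivity
    linarith

theorem half_tail (bmax B : ℕ) :
    ∑ i ∈ Icc (bmax + 1) B, (1 / 2 : ℝ) ^ i ≤ ((bmax : ℝ) + 1) / 2 ^ bmax := by
  have h5 : (1 / 2 : ℝ) ^ bmax ≤ ((bmax : ℝ) + 1) / 2 ^ bmax := by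
    rw [one_div, inv_pow, ← one_div]
    apply div_le_div_of_nonneg_right _ (by positivity)
    have : (0 : ℝ) ≤ bmax := by positivity
    linarith
  rcases Nat.lt_or_ge B bmax with hB | hB
  · rw [Finset.Icc_eq_empty (by omega), Finset.sum_empty]
    positivity
  · have h1 := sum_half B
    have h2 := sum_half bmax
    have h3 : ∑ b ∈ Icc 1 B, (1 / 2 : ℝ) ^ b =
        ∑ b ∈ Icc 1 bmax, (1 / 2 : ℝ) ^ b + ∑ b ∈ Icc (bmax + 1) B, (1 / 2 : ℝ) ^ b := by
      rw [← Finset.sum_union]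
      · congr 1
        ext b
        simp only [Finset.mem_union, Finset.mem_Icc]
        omega
      · rw [Finset.disjoint_left]
        intro b hb hb'
        rw [Finset.mem_Icc] at hb hb'
        omega
    have h4 : (0 : ℝ) ≤ (1 / 2 : ℝ) ^ B := by positivity
    linarith

open Classical in
/-- expansion of `G` beyond the crossing -/
theorem expand {Q : ℕ} (hQ : Odd Q) {c : ℤ} {d r B bmax : ℕ} (hbm : 1 ≤ bmax) :
    ∀ (L n j s : ℕ) (kap : ℤ), L ≤ n →
    2 * (j + L) ≤ r → 10 * |c| ≤ Q * 3 ^ (r - 2 * (j + L)) →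
    (2 ^ (s + L * bmax) : ℤ) ∣ Q * 3 ^ (r - 2 * j) * kap + c →
    G Q (2 ^ d * c) r B n j (d + s) ≤ H c0 bmax L kap s + L * (((bmax : ℝ) + 1) / 2 ^ bmax)
  | 0, n, j, s, kap, _, _, _, _ => by
    have := G_le_one Q (2 ^ d * c) r B n j (d + s)
    simpa [H] using this
  | L + 1, n, j, s, kap, hn, hr, hc, hk => by
    obtain ⟨n, rfl⟩ : ∃ n', n = n' + 1 := ⟨n - 1, by omega⟩
    set T : ℝ := ((bmax : ℝ) + 1) / 2 ^ bmax with hT
    have hTpos : 0 ≤ T := by positivity
    have hcj : 10 * |c| ≤ Q * 3 ^ (r - 2 * j) :=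
      hc.trans (mul_le_mul_of_nonneg_left (pow_le_pow_right₀ (by norm_num) (by omega))
        (by positivity))
    have hdb : Black Q (2 ^ d * c) r j (d + s) → DB kap s := by
      apply Black_DB hQ hcj
      exact (pow_dvd_pow 2 (by omega)).trans hk
    have ih : ∀ b, 2 ≤ b → b ≤ bmax → G Q (2 ^ d * c) r B n (j + 1) (d + s + b) ≤
        H c0 bmax L (9 * kap) (s + b) + L * T := by
      intro b _ hb
      rw [show d + s + b = d + (s + b) by ring]
      apply expand hQ hbm L n (j + 1) (s + b) (9 * kap) (by omega) (by omega)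
      · rw [show j + 1 + L = j + (L + 1) by ring]; exact hc
      · have e1 : (Q : ℤ) * 3 ^ (r - 2 * (j + 1)) * (9 * kap) + c =
            Q * 3 ^ (r - 2 * j) * kap + c := by
          have e2 : r - 2 * j = r - 2 * (j + 1) + 2 := by omega
          rw [e2, pow_add]
          ring
        rw [e1]
        refine (pow_dvd_pow 2 ?_).trans hk
        have : (L + 1) * bmax = L * bmax + bmax := by ring
        omega
    rw [G, H]
    have h1 := split_le (fun b => Pb b) 2 (fun b hb => Pb_nonneg (by omega)) B bmax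
      (T := T) (a := L * T) (by omega) (Pb_tail bmax B hbm) (sum_Pb_le bmax) (by positivity)
      (x := fun b => (if b = 3 ∧ ¬ Black Q (2 ^ d * c) r j (d + s) then 1 - c0 else 1) *
        G Q (2 ^ d * c) r B n (j + 1) (d + s + b))
      (y := fun b => (if b = 3 ∧ ¬ DB kap s then 1 - c0 else 1) * H c0 bmax L (9 * kap) (s + b))
      (fun b => by
        have h2 := G_le_one Q (2 ^ d * c) r B n (j + 1) (d + s + b)
        have h3 := G_nonneg Q (2 ^ d * c) r B n (j + 1) (d + s + b)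
        have h4 := kap_le (b = 3 ∧ ¬ Black Q (2 ^ d * c) r j (d + s))
        have h5 := kap_nonneg (b = 3 ∧ ¬ Black Q (2 ^ d * c) r j (d + s))
        nlinarith)
      (fun b => mul_nonneg (kap_nonneg _) (Hc_nonneg _ _ _ _))
      (fun b hb1 hb2 => by
        have h2 := ih b hb1 hb2
        have h3 := G_nonneg Q (2 ^ d * c) r B n (j + 1) (d + s + b)
        have hH := Hc_nonneg bmax L (9 * kap) (s + b)
        have hLT : 0 ≤ (L : ℝ) * T := by positivity
        have hc1 := c0_pos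
        have hc2 := c0_lt_one
        by_cases hq : b = 3 ∧ ¬ DB kap s
        · have hq' : b = 3 ∧ ¬ Black Q (2 ^ d * c) r j (d + s) := ⟨hq.1, fun h => hq.2 (hdb h)⟩
          simp only [if_pos hq, if_pos hq']
          nlinarith
        · simp only [if_neg hq]
          have h4 := kap_le (b = 3 ∧ ¬ Black Q (2 ^ d * c) r j (d + s))
          nlinarith)
    have e1 : ∀ b : ℕ, Pb b * (if b = 3 ∧ ¬ Black Q (2 ^ d * c) r j (d + s) then 1 - c0 else 1) *
        G Q (2 ^ d * c) r B n (j + 1) (d + s + b) =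
        Pb b * ((if b = 3 ∧ ¬ Black Q (2 ^ d * c) r j (d + s) then 1 - c0 else 1) *
        G Q (2 ^ d * c) r B n (j + 1) (d + s + b)) := fun b => mul_assoc _ _ _
    have e2 : ∀ b : ℕ, ((b : ℝ) - 1) * (1 / 2) ^ b * (if b = 3 ∧ ¬ DB kap s then 1 - c0 else 1) *
        H c0 bmax L (9 * kap) (s + b) =
        Pb b * ((if b = 3 ∧ ¬ DB kap s then 1 - c0 else 1) * H c0 bmax L (9 * kap) (s + b)) :=
      fun b => by rw [Pb_eq, mul_assoc]
    simp only [e1, e2]
    push_cast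
    linarith


/-- the value after `k` marks -/
noncomputable def Psi (bmax L : ℕ) (kap : ℤ) (k : ℕ) : ℝ :=
  if k % 2 = 0 then ∑ b ∈ Icc 2 bmax, Pb b * H c0 bmax L (9 * (kap * 9 ^ (k / 2))) b
  else ∑ i ∈ Icc 1 bmax, (1 / 2 : ℝ) ^ i * H c0 bmax L (9 * (kap * 9 ^ (k / 2))) i

theorem Psi_nonneg (bmax L : ℕ) (kap : ℤ) (k : ℕ) : 0 ≤ Psi bmax L kap k := by
  unfold Psi
  split_ifs
  · apply Finset.sum_nonneg
    intro b hb
    rw [Finset.mem_Icc] at hb
    exact mul_nonneg (Pb_nonneg (by omega)) (Hc_nonneg _ _ _ _)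
  · exact Finset.sum_nonneg fun i _ => mul_nonneg (by positivity) (Hc_nonneg _ _ _ _)

theorem Psi_le_one (bmax L : ℕ) (kap : ℤ) (k : ℕ) : Psi bmax L kap k ≤ 1 := by
  unfold Psi
  split_ifs
  · calc _ ≤ ∑ b ∈ Finset.Icc 2 bmax, Pb b * 1 := by
          apply Finset.sum_le_sum
          intro b hb
          rw [Finset.mem_Icc] at hb
          exact mul_le_mul_of_nonneg_left (Hc_le_one _ _ _ _) (Pb_nonneg (by omega))
      _ ≤ 1 := by simpa using sum_Pb_le bmax
  · calc _ ≤ ∑ i ∈ Finset.Icc 1 bmax, (1 / 2 : ℝ) ^ i * 1 := by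
          apply Finset.sum_le_sum
          intro b hb
          exact mul_le_mul_of_nonneg_left (Hc_le_one _ _ _ _) (by positivity)
      _ = 1 - (1 / 2 : ℝ) ^ bmax := by simpa using sum_half bmax
      _ ≤ 1 := by
          have : (0 : ℝ) ≤ (1 / 2) ^ bmax := by positivity
          linarith

/-- the majorant after the marks -/
theorem UU_le_Psi {Q : ℕ} (hQ : Odd Q) {c kap : ℤ} {d r B bmax L n k : ℕ} (hbm : 1 ≤ bmax)
    (hk : L + 1 ≤ n - k / 2) (hr : 2 * n ≤ r)
    (hc : 10 * |c| ≤ Q * 3 ^ (r - 2 * (k / 2 + 1 + L)))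
    (hkap : (2 ^ ((L + 1) * bmax) : ℤ) ∣ Q * 3 ^ r * kap + c) :
    UU Q (2 ^ d * c) r B n k d ≤ Psi bmax L kap k + (L + 1) * (((bmax : ℝ) + 1) / 2 ^ bmax) := by
  set T : ℝ := ((bmax : ℝ) + 1) / 2 ^ bmax with hT
  have hTpos : 0 ≤ T := by positivity
  obtain ⟨n', hn'⟩ : ∃ n', n - k / 2 = n' + 1 := ⟨n - k / 2 - 1, by omega⟩
  have key : ∀ b, b ≤ bmax → G Q (2 ^ d * c) r B n' (k / 2 + 1) (d + b) ≤
      H c0 bmax L (9 * (kap * 9 ^ (k / 2))) b + L * T := by
    intro b hb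
    apply expand hQ hbm L n' (k / 2 + 1) b _ (by omega) (by omega)
    · exact hc
    · have e1 : (Q : ℤ) * 3 ^ (r - 2 * (k / 2 + 1)) * (9 * (kap * 9 ^ (k / 2))) + c =
          Q * 3 ^ r * kap + c := by
        have e2 : r = r - 2 * (k / 2 + 1) + (2 + 2 * (k / 2)) := by omega
        have e3 : (3 : ℤ) ^ r = 3 ^ (r - 2 * (k / 2 + 1)) * (9 * 9 ^ (k / 2)) := by
          conv_lhs => rw [e2, pow_add, pow_add, pow_mul]
          norm_num
        rw [e3]
        ring
      rw [e1]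
      refine (pow_dvd_pow 2 ?_).trans hkap
      have : (L + 1) * bmax = L * bmax + bmax := by ring
      omega
  unfold UU Psi
  by_cases hpar : k % 2 = 0
  · rw [if_pos hpar, if_pos hpar, hn', U0]
    have h1 := split_le (fun b => Pb b) 2 (fun b hb => Pb_nonneg (by omega)) B bmax
      (T := T) (a := L * T) (by omega) (Pb_tail bmax B hbm) (sum_Pb_le bmax) (by positivity)
      (x := fun b => G Q (2 ^ d * c) r B n' (k / 2 + 1) (d + b))
      (y := fun b => H c0 bmax L (9 * (kap * 9 ^ (k / 2))) b)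
      (fun b => G_le_one _ _ _ _ _ _ _) (fun b => Hc_nonneg _ _ _ _)
      (fun b _ hb2 => key b hb2)
    linarith
  · rw [if_neg hpar, if_neg hpar, hn', U1]
    have h1 := split_le (fun i => (1 / 2 : ℝ) ^ i) 1 (fun b hb => by positivity) B bmax
      (T := T) (a := L * T) (by omega) (half_tail bmax B) (by
        rw [sum_half]
        have : (0 : ℝ) ≤ (1 / 2) ^ bmax := by positivity
        linarith) (by positivity)
      (x := fun b => G Q (2 ^ d * c) r B n' (k / 2 + 1) (d + b))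
      (y := fun b => H c0 bmax L (9 * (kap * 9 ^ (k / 2))) b)
      (fun b => G_le_one _ _ _ _ _ _ _) (fun b => Hc_nonneg _ _ _ _)
      (fun b _ hb2 => key b hb2)
    linarith

theorem nine_pow_sub (q : ℕ) : (2 ^ (q + 3) : ℤ) ∣ 9 ^ (2 ^ q) - 1 := by
  induction q with
  | zero => norm_num
  | succ q ih =>
    have e : (9 : ℤ) ^ (2 ^ (q + 1)) - 1 = (9 ^ (2 ^ q) - 1) * (9 ^ (2 ^ q) + 1) := by
      rw [pow_succ, pow_mul]
      ring
    rw [e, show q + 1 + 3 = (q + 3) + 1 by ring, pow_succ]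
    apply mul_dvd_mul ih
    have : Odd ((9 : ℤ) ^ (2 ^ q)) := Odd.pow (by decide)
    exact (this.add_odd odd_one).two_dvd

theorem Psi_per {bmax L q : ℕ} (hq : (L + 1) * bmax ≤ q + 3) (kap : ℤ) (k : ℕ) :
    Psi bmax L kap (k + 2 * 2 ^ q) = Psi bmax L kap k := by
  have e1 : (k + 2 * 2 ^ q) % 2 = k % 2 := by omega
  have e2 : (k + 2 * 2 ^ q) / 2 = k / 2 + 2 ^ q := by omega
  have key : ∀ b, b ≤ bmax → H c0 bmax L (9 * (kap * 9 ^ (k / 2 + 2 ^ q))) b =
      H c0 bmax L (9 * (kap * 9 ^ (k / 2))) b := by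
    intro b hb
    apply H_per c0 bmax L
    have e3 : 9 * (kap * 9 ^ (k / 2 + 2 ^ q)) - 9 * (kap * 9 ^ (k / 2)) =
        9 * (kap * 9 ^ (k / 2)) * (9 ^ (2 ^ q) - 1) := by
      rw [pow_add]
      ring
    rw [e3]
    apply Dvd.dvd.mul_left
    refine (pow_dvd_pow 2 ?_).trans (nine_pow_sub q)
    have : (L + 1) * bmax = L * bmax + bmax := by ring
    omega
  unfold Psi
  rw [e1, e2]
  split_ifs
  · apply Finset.sum_congr rfl
    intro b hb
    rw [Finset.mem_Icc] at hb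
    rw [key b hb.2]
  · apply Finset.sum_congr rfl
    intro b hb
    rw [Finset.mem_Icc] at hb
    rw [key b hb.2]

theorem sum_two_mul (f : ℕ → ℝ) (Q : ℕ) :
    ∑ k ∈ range (2 * Q), f k = ∑ t ∈ range Q, (f (2 * t) + f (2 * t + 1)) := by
  induction Q with
  | zero => simp
  | succ Q ih =>
    rw [show 2 * (Q + 1) = 2 * Q + 1 + 1 by ring, Finset.sum_range_succ, Finset.sum_range_succ, ih,
      Finset.sum_range_succ]
    ring

theorem Psi_avg {bmax L q : ℕ} (hL1 : 1 ≤ L) (hb : 4 ≤ bmax) (hq : (L + 1) * bmax ≤ q + 3) {kap : ℤ}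
    (hk : Odd kap) :
    (∑ k ∈ range (2 * 2 ^ q), Psi bmax L kap k) / ((2 * 2 ^ q : ℕ) : ℝ) ≤
      (1 - 3 * c0 / 16) ^ ((L - 1) / 2) := by
  set M : ℝ := (1 - 3 * c0 / 16) ^ ((L - 1) / 2) with hM
  have hc1 := c0_pos
  have hc2 := c0_lt_one
  have hMpos : 0 ≤ M := by
    apply pow_nonneg
    linarith
  have hkap : Odd (9 * kap) := Odd.mul (by decide) hk
  have hpow : (0 : ℝ) < 2 ^ q := by positivity
  have havg : ∀ b, 1 ≤ b → b ≤ bmax →
      ∑ t ∈ range (2 ^ q), H c0 bmax L (9 * (kap * 9 ^ t)) b ≤ M * 2 ^ q := by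
    intro b hb1 hb2
    have h1 := H_avg' (c0 := c0) (bmax := bmax) (l := L - 1) (kap0 := 9 * kap) (s := b) (q := q)
      hc1.le hc2.le (by omega) hkap hb1 (by
        have : (L + 1) * bmax = L * bmax + bmax := by ring
        rw [show L - 1 + 1 = L by omega]
        omega)
    rw [show L - 1 + 1 = L by omega] at h1
    rw [div_le_iff₀ hpow] at h1
    refine le_trans (le_of_eq ?_) h1
    apply Finset.sum_congr rfl
    intro t _
    rw [← mul_assoc]
  rw [sum_two_mul, Finset.sum_add_distrib]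
  have h1 : ∑ t ∈ range (2 ^ q), Psi bmax L kap (2 * t) ≤ M * 2 ^ q := by
    have e : ∀ t, Psi bmax L kap (2 * t) =
        ∑ b ∈ Icc 2 bmax, Pb b * H c0 bmax L (9 * (kap * 9 ^ t)) b := by
      intro t
      unfold Psi
      rw [if_pos (by omega), show 2 * t / 2 = t by omega]
    simp only [e]
    rw [Finset.sum_comm]
    calc _ ≤ ∑ b ∈ Icc 2 bmax, Pb b * (M * 2 ^ q) := by
          apply Finset.sum_le_sum
          intro b hb
          rw [Finset.mem_Icc] at hb
          rw [← Finset.mul_sum]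
          exact mul_le_mul_of_nonneg_left (havg b (by omega) hb.2) (Pb_nonneg (by omega))
      _ = (∑ b ∈ Icc 2 bmax, Pb b) * (M * 2 ^ q) := by rw [Finset.sum_mul]
      _ ≤ 1 * (M * 2 ^ q) := mul_le_mul_of_nonneg_right (sum_Pb_le bmax) (by positivity)
      _ = _ := one_mul _
  have h2 : ∑ t ∈ range (2 ^ q), Psi bmax L kap (2 * t + 1) ≤ M * 2 ^ q := by
    have e : ∀ t, Psi bmax L kap (2 * t + 1) =
        ∑ b ∈ Icc 1 bmax, (1 / 2 : ℝ) ^ b * H c0 bmax L (9 * (kap * 9 ^ t)) b := by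
      intro t
      unfold Psi
      rw [if_neg (by omega), show (2 * t + 1) / 2 = t by omega]
    simp only [e]
    rw [Finset.sum_comm]
    calc _ ≤ ∑ b ∈ Icc 1 bmax, (1 / 2 : ℝ) ^ b * (M * 2 ^ q) := by
          apply Finset.sum_le_sum
          intro b hb
          rw [Finset.mem_Icc] at hb
          rw [← Finset.mul_sum]
          exact mul_le_mul_of_nonneg_left (havg b (by omega) hb.2) (by positivity)
      _ = (∑ b ∈ Icc 1 bmax, (1 / 2 : ℝ) ^ b) * (M * 2 ^ q) := by rw [Finset.sum_mul]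
      _ ≤ 1 * (M * 2 ^ q) := by
          apply mul_le_mul_of_nonneg_right _ (by positivity)
          rw [sum_half]
          have : (0 : ℝ) ≤ (1 / 2) ^ bmax := by positivity
          linarith
      _ = _ := one_mul _
  rw [div_le_iff₀ (by positivity)]
  push_cast
  linarith

/-- a 2-adic approximation of `- c / 3 ^ r` -/
theorem exists_kap {Q : ℕ} (hQ : Odd Q) (c : ℤ) (r q : ℕ) (hc : Odd c) (hq : 1 ≤ q) :
    ∃ kap : ℤ, (2 ^ q : ℤ) ∣ Q * 3 ^ r * kap + c ∧ Odd kap := by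
  obtain ⟨a, b, hab⟩ := cop_two hQ r q
  refine ⟨-(a * c), ?_, ?_⟩
  · refine ⟨b * c, ?_⟩
    linear_combination (-c) * hab
  · have h1 : Odd a := by
      by_contra h
      rw [Int.not_odd_iff_even] at h
      have h2 : Even (a * (Q * 3 ^ r) + b * 2 ^ q) := by
        apply Even.add (h.mul_right _)
        apply Even.mul_left
        exact (even_two).pow_of_ne_zero (by omega)
      rw [hab] at h2
      exact absurd h2 (by decide)
    exact (h1.mul hc).neg

/-- For every `δ > 0` there is `h` with `S h δ`. -/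
theorem deep (δ : ℝ) (hδ : 0 < δ) : ∃ h : ℕ, S h δ := by
  have hc1 := c0_pos
  have hc2 := c0_lt_one
  -- the choice of L
  obtain ⟨L, hL1, hL⟩ : ∃ L : ℕ, 1 ≤ L ∧ (1 - 3 * c0 / 16) ^ ((L - 1) / 2) ≤ δ / 4 := by
    obtain ⟨m, hm⟩ := exists_pow_lt_of_lt_one (show 0 < δ / 4 by positivity)
      (show 1 - 3 * c0 / 16 < 1 by linarith)
    refine ⟨2 * m + 1, by omega, ?_⟩
    rw [show (2 * m + 1 - 1) / 2 = m by omega]
    exact hm.le
  -- the choice of bmax
  obtain ⟨bmax, hb4, hbT⟩ : ∃ bmax : ℕ, 4 ≤ bmax ∧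
      (L + 1) * (((bmax : ℝ) + 1) / 2 ^ bmax) ≤ δ / 4 := by
    have h1 : Filter.Tendsto (fun n : ℕ => (L + 1 : ℝ) * (((n : ℝ) + 1) / 2 ^ n)) Filter.atTop
        (nhds ((L + 1 : ℝ) * (0 + 0))) := by
      apply Filter.Tendsto.const_mul
      have h2 : Filter.Tendsto (fun n : ℕ => (n : ℝ) ^ 1 / 2 ^ n) Filter.atTop (nhds 0) :=
        tendsto_pow_const_div_const_pow_of_one_lt 1 (by norm_num)
      have h3 : Filter.Tendsto (fun n : ℕ => (1 / 2 : ℝ) ^ n) Filter.atTop (nhds 0) :=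
        tendsto_pow_atTop_nhds_zero_of_lt_one (by norm_num) (by norm_num)
      refine (h2.add h3).congr ?_
      intro n
      rw [one_div, inv_pow, pow_one, add_div, one_div]
    rw [add_zero, mul_zero] at h1
    have h2 := (h1.eventually (gt_mem_nhds (show 0 < δ / 4 by positivity))).and
      (Filter.eventually_ge_atTop 4)
    obtain ⟨n, hn1, hn2⟩ := h2.exists
    exact ⟨n, hn2, hn1.le⟩
  set q : ℕ := (L + 1) * bmax with hq
  have hq1 : 1 ≤ q := by
    rw [hq]
    nlinarith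
  set Qp : ℕ := 2 * 2 ^ q with hQp
  have hQp1 : 1 ≤ Qp := by
    rw [hQp]
    have := Nat.one_le_two_pow (n := q)
    omega
  -- the mixing rate
  obtain ⟨V1, hV1⟩ : ∃ V1 : ℕ, ∀ V, V1 ≤ V → (1 - (Qp : ℝ) / 2 ^ Qp) ^ (V / Qp) * 1 ≤ δ / 4 := by
    have hlt : (1 - (Qp : ℝ) / 2 ^ Qp) < 1 := by
      have : (0 : ℝ) < (Qp : ℝ) / 2 ^ Qp := by
        have : (0 : ℝ) < Qp := by exact_mod_cast hQp1
        positivity
      linarith
    have hge : 0 ≤ (1 - (Qp : ℝ) / 2 ^ Qp) := by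
      have h1 : (Qp : ℝ) ≤ 2 ^ Qp := by exact_mod_cast Nat.lt_two_pow_self.le
      have h2 : (Qp : ℝ) / 2 ^ Qp ≤ 1 := by
        rw [div_le_one (by positivity)]
        exact h1
      linarith
    obtain ⟨m, hm⟩ := exists_pow_lt_of_lt_one (show 0 < δ / 4 by positivity) hlt
    refine ⟨m * Qp, fun V hV => ?_⟩
    rw [mul_one]
    refine le_trans (pow_le_pow_of_le_one hge hlt.le ?_) hm.le
    rw [Nat.le_div_iff_mul_le (by omega)]
    exact hV
  obtain ⟨V2, hV2⟩ : ∃ V2 : ℕ, ∀ V, V2 ≤ V → (996 / 1000 : ℝ) ^ V ≤ δ / 4 := by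
    obtain ⟨m, hm⟩ := exists_pow_lt_of_lt_one (show 0 < δ / 4 by positivity)
      (show (996 / 1000 : ℝ) < 1 by norm_num)
    exact ⟨m, fun V hV => le_trans (pow_le_pow_of_le_one (by norm_num) (by norm_num) hV) hm.le⟩
  refine ⟨max (max V1 V2) (40 * (L + 1)), ?_⟩
  intro Q hQ B hB u0 c d n r hu0 hodd _ hsmall hd hdn hnr
  subst hu0
  have hdV1 : V1 ≤ d := le_trans (le_trans (le_max_left _ _) (le_max_left _ _)) hd
  have hdV2 : V2 ≤ d := le_trans (le_trans (le_max_right _ _) (le_max_left _ _)) hd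
  have hdL : 40 * (L + 1) ≤ d := le_trans (le_max_right _ _) hd
  obtain ⟨kap, hkap, hkodd⟩ := exists_kap hQ c r q hodd hq1
  -- typical number of marks
  have htyp : ∀ k, 20 * k ≤ 11 * d → UU Q (2 ^ d * c) r B n k d ≤
      Psi bmax L kap k + (L + 1) * (((bmax : ℝ) + 1) / 2 ^ bmax) := by
    intro k hk
    apply UU_le_Psi hQ (by omega) (by omega) hnr _ hkap
    -- size of c
    have h1 : (3 : ℕ) ^ (20 * (k + 2 + 2 * L)) ≤ 2 ^ (20 * d) := by
      calc (3 : ℕ) ^ (20 * (k + 2 + 2 * L)) ≤ 3 ^ (11 * d + 40 * (L + 1)) :=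
            Nat.pow_le_pow_right (by norm_num) (by omega)
        _ = (3 ^ 11) ^ d * 3 ^ (40 * (L + 1)) := by rw [pow_add, pow_mul]
        _ ≤ (2 ^ 18) ^ d * 4 ^ d := by
            apply Nat.mul_le_mul
            · exact Nat.pow_le_pow_left (by norm_num) d
            · calc (3 : ℕ) ^ (40 * (L + 1)) ≤ 4 ^ (40 * (L + 1)) :=
                    Nat.pow_le_pow_left (by norm_num) _
                _ ≤ 4 ^ d := Nat.pow_le_pow_right (by norm_num) hdL
        _ = 2 ^ (20 * d) := by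
            rw [← mul_pow, pow_mul]
            norm_num
    have h2 : (3 : ℕ) ^ (k + 2 + 2 * L) ≤ 2 ^ d := by
      by_contra hcon
      push Not at hcon
      have h4 : (2 ^ d) ^ 20 < ((3 : ℕ) ^ (k + 2 + 2 * L)) ^ 20 :=
        Nat.pow_lt_pow_left hcon (by norm_num)
      rw [← pow_mul, ← pow_mul, mul_comm d 20, mul_comm (k + 2 + 2 * L) 20] at h4
      omega
    have h2' : (3 : ℤ) ^ (k + 2 + 2 * L) ≤ 2 ^ d := by exact_mod_cast h2
    have h5 : |2 ^ d * c| = 2 ^ d * |c| := by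
      rw [abs_mul, abs_of_pos (by positivity : (0 : ℤ) < 2 ^ d)]
    rw [h5] at hsmall
    have h6 : (Q : ℤ) * 3 ^ r ≤ Q * 3 ^ (r - 2 * (k / 2 + 1 + L)) * 3 ^ (k + 2 + 2 * L) := by
      rw [mul_assoc, ← pow_add]
      exact mul_le_mul_of_nonneg_left (pow_le_pow_right₀ (by norm_num) (by omega)) (by positivity)
    have h7 : (Q : ℤ) * 3 ^ (r - 2 * (k / 2 + 1 + L)) * 3 ^ (k + 2 + 2 * L) ≤
        (Q : ℤ) * 3 ^ (r - 2 * (k / 2 + 1 + L)) * 2 ^ d :=
      mul_le_mul_of_nonneg_left h2' (by positivity)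
    have h8 : 100 * (2 ^ d * |c|) < (Q : ℤ) * 3 ^ (r - 2 * (k / 2 + 1 + L)) * 2 ^ d :=
      lt_of_lt_of_le (lt_of_lt_of_le hsmall h6) h7
    have h9 : (100 * |c|) * 2 ^ d < (Q : ℤ) * 3 ^ (r - 2 * (k / 2 + 1 + L)) * 2 ^ d := by
      calc (100 * |c|) * 2 ^ d = 100 * (2 ^ d * |c|) := by ring
        _ < _ := h8
    have h10 := lt_of_mul_lt_mul_right h9 (by positivity)
    have h11 := abs_nonneg c
    omega
  -- summation
  have hm := marks Q (2 ^ d * c) r B (by omega) n d 0 0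
  have hstart : G Q (2 ^ d * c) r B n 0 0 ≤ UU Q (2 ^ d * c) r B n 0 0 := by
    unfold UU
    simpa using G_le_U0 Q (2 ^ d * c) r B n 0 0
  refine hstart.trans (hm.trans ?_)
  set E : ℝ := (L + 1) * (((bmax : ℝ) + 1) / 2 ^ bmax) with hE
  have hEpos : 0 ≤ E := by positivity
  have hterm : ∀ i ∈ range (d + 1), (d.choose i : ℝ) *
      ((1 / 2) ^ d * UU Q (2 ^ d * c) r B n (0 + i) (0 + d)) ≤
      (d.choose i : ℝ) * (1 / 2) ^ d * Psi bmax L kap i + (d.choose i : ℝ) * (1 / 2) ^ d * E +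
        (if 11 * d < 20 * i then (d.choose i : ℝ) * (1 / 2) ^ d else 0) := by
    intro i _
    rw [zero_add, zero_add]
    have hw : (0 : ℝ) ≤ (d.choose i : ℝ) * (1 / 2) ^ d := by positivity
    split_ifs with hi
    · have h1 := UU_le_one Q (2 ^ d * c) r B n i d
      have h2 := Psi_nonneg bmax L kap i
      nlinarith [mul_nonneg hw h2, mul_nonneg hw hEpos, mul_le_mul_of_nonneg_left h1 hw]
    · have h1 := htyp i (by omega)
      have := mul_le_mul_of_nonneg_left h1 hw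
      nlinarith
  have hsum := Finset.sum_le_sum hterm
  rw [Finset.sum_add_distrib, Finset.sum_add_distrib, ← Finset.sum_filter] at hsum
  have h1 := binom_mix hQp1 (Φ := Psi bmax L kap) (M := 1)
    (fun k => Psi_per (by omega) kap k) (Psi_nonneg bmax L kap) (Psi_le_one bmax L kap) d
  have h2 := Psi_avg (L := L) (q := q) hL1 hb4 (by omega) hkodd
  have h3' := binom_tail d
  have h4 : ∑ i ∈ range (d + 1), (d.choose i : ℝ) * (1 / 2) ^ d * E = E := by
    rw [← Finset.sum_mul, ← Finset.sum_mul]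
    have : ∑ i ∈ range (d + 1), (d.choose i : ℝ) = 2 ^ d := by
      exact_mod_cast Nat.sum_range_choose d
    rw [this, one_div, inv_pow, mul_inv_cancel₀ (by positivity), one_mul]
  have h5 := hV1 d hdV1
  have h6 := hV2 d hdV2
  linarith

end Pool.Agent.Lib.KQ
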