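import Pool.Agent.Lib.KQ.W0
import Pool.Agent.Lib.KD38.Pair

/-! MP_e43fce_nt: the pairing bound for the character sum over words, modulus `Q * 3 ^ r`, `Q` odd. -/

set_option autoImplicit false

namespace Pool.Agent.Lib.KQ

open Finset

open Pool.Agent.Lib.KD38 (F WS ee prs)

/-- the character only depends on the residue -/
theorem ee_congr {D : ℕ} (hD : 0 < D) {a b : ℤ} (h : (D : ℤ) ∣ a - b) :
    ee ((a : ℝ) / D) = ee ((b : ℝ) / D) := by
  obtain ⟨k, hk⟩ := h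
  have h3 : (D : ℝ) ≠ 0 := by positivity
  have e : (a : ℝ) / D = (b : ℝ) / D + (k : ℤ) := by
    have : (a : ℝ) = b + D * k := by
      have : a = b + D * k := by linarith
      rw [this]; push_cast; ring
    rw [this]; field_simp
  rw [e, KD38.ee_add, KD38.ee_int, mul_one]

theorem pow_inv_dvd {D h : ℤ} (hh : D ∣ 2 * h - 1) (s : ℕ) : D ∣ 2 ^ s * h ^ s - 1 := by
  have : (2 : ℤ) ^ s * h ^ s - 1 = (2 * h) ^ s - 1 ^ s := by rw [mul_pow, one_pow]
  rw [this]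
  exact hh.trans (sub_dvd_pow_sub_pow _ _ s)

/-- white point: the cosine is at most `1 - c0` -/
theorem cos_white {Q : ℕ} (hQ : 0 < Q) {u0 η h : ℤ} {r j l : ℕ}
    (hh : (Q : ℤ) * 3 ^ (r - 2 * j) ∣ 2 * h - 1)
    (hu : u0 = h ^ 2 * η) (hw : ¬ Black Q u0 r j l) :
    |Real.cos (Real.pi * ((η * h ^ (l + 2) : ℤ) / ((Q * 3 ^ (r - 2 * j) : ℕ) : ℝ)))| ≤ 1 - c0 := by
  set R := r - 2 * j with hR
  have h3 : (0 : ℝ) < ((Q * 3 ^ R : ℕ) : ℝ) := by positivity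
  set y : ℝ := (η * h ^ (l + 2) : ℤ) / ((Q * 3 ^ R : ℕ) : ℝ) with hy
  set N := round y with hN
  have habs : |y - N| ≤ 1 / 2 := abs_sub_round y
  have hfar : 1 / 100 ≤ |y - N| := by
    by_contra hcon
    push Not at hcon
    apply hw
    refine ⟨η * h ^ (l + 2) - N * (Q * 3 ^ R), ?_, ?_⟩
    · have e1 : ((100 * |η * h ^ (l + 2) - N * (Q * 3 ^ R)| : ℤ) : ℝ) <
          (((Q : ℤ) * 3 ^ R : ℤ) : ℝ) := by
        push_cast
        have e0 : (((Q * 3 ^ R : ℕ) : ℝ)) = (Q : ℝ) * 3 ^ R := by push_cast; ring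
        have e2 : ((η : ℝ) * h ^ (l + 2) - N * (Q * 3 ^ R)) = (y - N) * (Q * 3 ^ R) := by
          rw [hy, e0]
          rw [e0] at h3
          push_cast
          field_simp
        rw [e0] at h3
        rw [e2, abs_mul, abs_of_pos h3]
        nlinarith
      exact_mod_cast e1
    · have e3 := pow_inv_dvd hh l
      have e4 : (2 : ℤ) ^ l * (η * h ^ (l + 2) - N * (Q * 3 ^ R)) - u0 =
          (2 ^ l * h ^ l - 1) * (η * h ^ 2) - (Q * 3 ^ R) * (2 ^ l * N) := by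
        rw [hu]; ring
      rw [e4]
      exact dvd_sub (e3.mul_right _) (Dvd.intro _ rfl)
  have e5 : |Real.cos (Real.pi * y)| = |Real.cos (Real.pi * (y - N))| := by
    have : Real.pi * y = Real.pi * (y - N) + N * Real.pi := by ring
    rw [this, Real.cos_add_int_mul_pi]
    rw [abs_mul]
    have : |(-1 : ℝ) ^ N| = 1 := by
      rw [abs_zpow]; simp
    rw [this, one_mul]
  rw [e5, ← Real.cos_abs, abs_mul, abs_of_pos Real.pi_pos]
  have hpi := Real.pi_pos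
  have hnn : 0 ≤ Real.cos (Real.pi * |y - N|) := by
    apply Real.cos_nonneg_of_mem_Icc
    constructor
    · have : 0 ≤ Real.pi * |y - N| := by positivity
      linarith
    · nlinarith
  rw [abs_of_nonneg hnn]
  have : (1 : ℝ) - c0 = Real.cos (Real.pi / 100) := by unfold c0; ring
  rw [this]
  apply Real.cos_le_cos_of_nonneg_of_le_pi (by positivity) (by nlinarith)
  nlinarith

/-- the summand of the character sum -/
noncomputable def smd (Q : ℕ) (η h : ℤ) (r j l : ℕ) (ψ : ℕ → ℂ) (w : List ℕ) : ℂ :=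
  (1 / 2 : ℂ) ^ w.sum * (ψ w.sum *
    ee (((-(η * h ^ l * (h ^ w.sum * F w)) : ℤ) : ℝ) / ((Q * 3 ^ (r - 2 * j) : ℕ) : ℝ)))

theorem smd_cons {Q : ℕ} (hQ : 0 < Q) {η h : ℤ} {r j l : ℕ} (ψ : ℕ → ℂ)
    (hh : (Q : ℤ) * 3 ^ (r - 2 * j) ∣ 2 * h - 1)
    (hr : 2 * (j + 1) ≤ r) (a a' : ℕ) (w : List ℕ) :
    smd Q η h r j l ψ (a :: a' :: w) =
      ((1 / 2 : ℂ) ^ (a + a') *
        ee (((-(η * h ^ l * (h ^ (a + a') * (2 ^ a' + 3))) : ℤ) : ℝ) /
          ((Q * 3 ^ (r - 2 * j) : ℕ) : ℝ))) *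
      smd Q η h r (j + 1) (l + (a + a')) (fun x => ψ (a + a' + x)) w := by
  unfold smd
  have hs : (a :: a' :: w).sum = (a + a') + w.sum := by simp [add_assoc]
  rw [hs]
  set s := w.sum with hsdef
  have hF : (F (a :: a' :: w) : ℤ) = 2 ^ s * (2 ^ a' + 3) + 9 * F w := by
    simp only [F, List.sum_cons, ← hsdef]
    push_cast
    ring
  have hD : 0 < Q * 3 ^ (r - 2 * j) := by positivity
  have e1 : ee (((-(η * h ^ l * (h ^ (a + a' + s) * F (a :: a' :: w))) : ℤ) : ℝ) /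
        ((Q * 3 ^ (r - 2 * j) : ℕ) : ℝ)) =
      ee (((-(η * h ^ l * (h ^ (a + a') * (2 ^ a' + 3))) : ℤ) : ℝ) /
        ((Q * 3 ^ (r - 2 * j) : ℕ) : ℝ)) *
      ee (((-(η * h ^ (l + (a + a')) * (h ^ s * F w)) : ℤ) : ℝ) /
        ((Q * 3 ^ (r - 2 * (j + 1)) : ℕ) : ℝ)) := by
    have e2 : (((-(η * h ^ (l + (a + a')) * (h ^ s * F w)) : ℤ) : ℝ) /
          ((Q * 3 ^ (r - 2 * (j + 1)) : ℕ) : ℝ)) =
        (((-(η * h ^ (l + (a + a')) * (h ^ s * (9 * F w))) : ℤ) : ℝ) /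
          ((Q * 3 ^ (r - 2 * j) : ℕ) : ℝ)) := by
      have : r - 2 * j = (r - 2 * (j + 1)) + 2 := by omega
      rw [this, pow_add]
      push_cast
      field_simp
      ring
    rw [e2, ← KD38.ee_add, ← add_div, ← Int.cast_add]
    apply ee_congr hD
    rw [hF]
    have e3 := pow_inv_dvd hh s
    have e4 : -(η * h ^ l * (h ^ (a + a' + s) * (2 ^ s * (2 ^ a' + 3) + 9 * (F w : ℤ)))) -
        (-(η * h ^ l * (h ^ (a + a') * (2 ^ a' + 3))) +
          -(η * h ^ (l + (a + a')) * (h ^ s * (9 * F w)))) =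
        (2 ^ s * h ^ s - 1) * (-(η * h ^ l * (h ^ (a + a') * (2 ^ a' + 3)))) := by
      ring
    rw [e4]
    push_cast
    exact e3.mul_right _
  rw [e1, pow_add]
  ring

open Classical in
theorem pair_aux (Q : ℕ) (hQ : 0 < Q) (η h u0 : ℤ) (r L : ℕ) (hh : (Q : ℤ) * 3 ^ r ∣ 2 * h - 1)
    (hu : u0 = h ^ 2 * η) :
    ∀ (n j l : ℕ) (ψ : ℕ → ℂ), (∀ a, ‖ψ a‖ ≤ 1) → 2 * (j + n) ≤ r →
      ‖WS L (2 * n) (smd Q η h r j l ψ)‖ ≤ G Q u0 r (2 * L) n j l
  | 0, j, l, ψ, hψ, _ => by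
    simp only [WS, G, smd, List.sum_nil, pow_zero, one_mul]
    rw [norm_mul, KD38.norm_ee, mul_one]
    exact hψ 0
  | n + 1, j, l, ψ, hψ, hr => by
    have hh' : (Q : ℤ) * 3 ^ (r - 2 * j) ∣ 2 * h - 1 :=
      (mul_dvd_mul_left _ (pow_dvd_pow 3 (Nat.sub_le _ _))).trans hh
    have hD : 0 < Q * 3 ^ (r - 2 * j) := by positivity
    rw [show 2 * (n + 1) = 2 * n + 2 by ring, KD38.WS_pair, G]
    refine (norm_sum_le _ _).trans (Finset.sum_le_sum fun b hb => ?_)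
    rw [Finset.mem_Icc] at hb
    set E := WS L (2 * n) (smd Q η h r (j + 1) (l + b) (fun x => ψ (b + x))) with hE
    have ih : ‖E‖ ≤ G Q u0 r (2 * L) n (j + 1) (l + b) :=
      pair_aux Q hQ η h u0 r L hh hu n (j + 1) (l + b) _ (fun a => hψ _) (by omega)
    set c : ℕ → ℂ := fun a' => ee (((-(η * h ^ l * (h ^ b * (2 ^ a' + 3))) : ℤ) : ℝ) /
      ((Q * 3 ^ (r - 2 * j) : ℕ) : ℝ)) with hc
    have e1 : ∑ p ∈ prs L b, WS L (2 * n) (fun w => smd Q η h r j l ψ (p.1 :: p.2 :: w)) =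
        ((1 / 2 : ℂ) ^ b * ∑ p ∈ prs L b, c p.2) * E := by
      rw [Finset.mul_sum, Finset.sum_mul]
      apply Finset.sum_congr rfl
      intro p hp
      simp only [prs, Finset.mem_filter] at hp
      have hpb : p.1 + p.2 = b := hp.2
      rw [KD38.WS_congr L (2 * n) (fun w => smd_cons hQ ψ hh' (by omega) p.1 p.2 w),
        KD38.WS_mul_left, hpb]
    rw [e1, norm_mul, norm_mul, norm_pow]
    have e2 : ‖(1 / 2 : ℂ)‖ = 1 / 2 := by norm_num
    rw [e2]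
    have hcard : ‖∑ p ∈ prs L b, c p.2‖ ≤ (b : ℝ) - 1 := by
      calc _ ≤ ∑ p ∈ prs L b, ‖c p.2‖ := norm_sum_le _ _
        _ = ((prs L b).card : ℝ) := by simp [hc, KD38.norm_ee]
        _ ≤ ((b - 1 : ℕ) : ℝ) := by exact_mod_cast KD38.card_prs L b
        _ = (b : ℝ) - 1 := by rw [Nat.cast_sub (by omega)]; simp
    have key : (1 / 2 : ℝ) ^ b * ‖∑ p ∈ prs L b, c p.2‖ ≤
        Pb b * (if b = 3 ∧ ¬ Black Q u0 r j l then 1 - c0 else 1) := by
      by_cases hcase : b = 3 ∧ ¬ Black Q u0 r j l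
      · obtain ⟨hb3, hw⟩ := hcase
        have hL : 2 ≤ L := by omega
        rw [if_pos ⟨hb3, hw⟩]
        subst hb3
        rw [KD38.prs_three hL, Finset.sum_pair (by simp)]
        have e3 : c 2 + c 1 = c 1 * (1 + ee (((-(η * h ^ (l + 2)) : ℤ) : ℝ) /
            ((Q * 3 ^ (r - 2 * j) : ℕ) : ℝ))) := by
          rw [mul_add, mul_one, add_comm (c 2)]
          congr 1
          rw [hc]
          simp only
          rw [← KD38.ee_add, ← add_div, ← Int.cast_add]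
          apply ee_congr hD
          have e4 : -(η * h ^ l * (h ^ 3 * (2 ^ 2 + 3))) -
              (-(η * h ^ l * (h ^ 3 * (2 ^ 1 + 3))) + -(η * h ^ (l + 2))) =
              (2 * h - 1) * (-(η * h ^ (l + 2))) := by ring
          rw [e4]
          push_cast
          exact hh'.mul_right _
        rw [e3, norm_mul, KD38.norm_one_add_ee]
        have e5 : ‖c 1‖ = 1 := KD38.norm_ee _
        rw [e5, one_mul]
        have e6 := cos_white hQ hh' hu hw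
        have e7 : |Real.cos (Real.pi * (((-(η * h ^ (l + 2)) : ℤ) : ℝ) /
              ((Q * 3 ^ (r - 2 * j) : ℕ) : ℝ)))| =
            |Real.cos (Real.pi * ((η * h ^ (l + 2) : ℤ) /
              ((Q * 3 ^ (r - 2 * j) : ℕ) : ℝ)))| := by
          rw [← Real.cos_neg]
          congr 2
          push_cast
          ring
        rw [e7]
        have e8 : Pb 3 = 1 / 4 := by unfold Pb; norm_num
        rw [e8]
        nlinarith
      · rw [if_neg hcase, mul_one]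
        unfold Pb
        rw [one_div, inv_pow, div_eq_inv_mul]
        exact mul_le_mul_of_nonneg_left hcard (by positivity)
    exact mul_le_mul key ih (norm_nonneg _) (mul_nonneg (Pb_nonneg (by omega)) (kap_nonneg _))

/-- **PAIR** with modulus `Q * 3 ^ r` -/
theorem pair (Q : ℕ) (hQ : 0 < Q) (η h : ℤ) (r L n : ℕ) (hh : (Q : ℤ) * 3 ^ r ∣ 2 * h - 1)
    (hr : 2 * n ≤ r) (ψ : ℕ → ℂ) (hψ : ∀ a, ‖ψ a‖ ≤ 1) :
    ‖WS L (2 * n) (fun w => (1 / 2 : ℂ) ^ w.sum * (ψ w.sum *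
        ee (((-(η * (h ^ w.sum * F w)) : ℤ) : ℝ) / ((Q * 3 ^ r : ℕ) : ℝ))))‖
      ≤ G Q (h ^ 2 * η) r (2 * L) n 0 0 := by
  have := pair_aux Q hQ η h (h ^ 2 * η) r L hh rfl n 0 0 ψ hψ (by omega)
  have e : smd Q η h r 0 0 ψ = (fun w => (1 / 2 : ℂ) ^ w.sum * (ψ w.sum *
        ee (((-(η * (h ^ w.sum * F w)) : ℤ) : ℝ) / ((Q * 3 ^ r : ℕ) : ℝ)))) := by
    funext w
    unfold smd
    simp
  rwa [e] at this

end Pool.Agent.Lib.KQ
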