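import Pool.Agent.Lib.KQ.W1

set_option autoImplicit false

namespace Pool.Agent.Lib.KQ

open Finset

open Classical in
theorem G_mul (Q : ℕ) (u0 : ℤ) (r B : ℕ) (n2 : ℕ) {c : ℝ} :
    ∀ n1 j l : ℕ, (∀ l', G Q u0 r B n2 (j + n1) l' ≤ c) →
      G Q u0 r B (n1 + n2) j l ≤ G Q u0 r B n1 j l * c
  | 0, j, l, h => by
    have := h l
    simpa [G] using this
  | n1 + 1, j, l, h => by
    rw [show n1 + 1 + n2 = (n1 + n2) + 1 by ring, G, G, Finset.sum_mul]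
    apply Finset.sum_le_sum
    intro b hb
    rw [Finset.mem_Icc] at hb
    rw [mul_assoc _ _ c]
    apply mul_le_mul_of_nonneg_left _ (mul_nonneg (Pb_nonneg (by omega)) (kap_nonneg _))
    apply G_mul Q u0 r B n2 n1 (j + 1) (l + b)
    intro l'
    rw [show j + 1 + n1 = j + (n1 + 1) by ring]
    exact h l'

/-- Lemma W without the threshold -/
theorem lemW_inf {h : ℕ} {q : ℝ} (hS : S h q) (hq : 0 ≤ q) {B : ℕ} (hB : 4 ≤ B)
    {Q : ℕ} (hQ : Odd Q) {u0 : ℤ} (hu0 : ¬ (Q : ℤ) ∣ u0) (r : ℕ) (t n j l : ℕ) (ht : 2 * t ≤ n) (hr : 2 * j + 2 * n ≤ r)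
    (hyp : ∀ i : ℕ, i ≤ 2 * t → ∀ l' : ℕ, ∀ (u : ℤ) (d' : ℕ),
        100 * |u| < Q * 3 ^ (r - 2 * (j + i)) → ((Q : ℤ) * 3 ^ (r - 2 * (j + i))) ∣ 2 ^ l' * u - u0 →
        (2 : ℤ) ^ d' ∣ u → 3 * d' + 10 * i ≤ 10 * n) :
    G Q u0 r B n j l ≤ max q ((1 - c0 / 4 * (1 / 2) ^ (h + 1)) ^ t) := by
  apply le_of_forall_pos_le_add
  intro ε hε
  obtain ⟨X, hX⟩ : ∃ X : ℕ, (2 / 3 : ℝ) ^ X < ε / ((3 / 2) ^ l * 9 ^ (2 * t)) :=
    exists_pow_lt_of_lt_one (by positivity) (by norm_num)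
  have h1 := lemW hS hq hB hQ hu0 r X t n j l ht hr
    (fun i hi l' _ _ u d' h1 h2 h3 => hyp i hi l' u d' h1 h2 h3)
  refine h1.trans ?_
  have h2 : (3 / 2 : ℝ) ^ ((l : ℤ) - (X : ℤ)) = (3 / 2) ^ l * (2 / 3) ^ X := by
    rw [zpow_sub₀ (by norm_num), zpow_natCast, zpow_natCast, div_eq_mul_inv, ← inv_pow]
    norm_num
  have h3 : (0 : ℝ) < (3 / 2) ^ l * 9 ^ (2 * t) := by positivity
  rw [lt_div_iff₀ h3] at hX
  rw [h2]
  nlinarith

/-- the arithmetic of the deep points in the range of the scale recursion -/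
theorem deep_arith {N N' g i d' t : ℕ} (hN : 25 * g ≤ N) (hN' : 64 * N' ≤ N + 63) (ht : 16 * t ≤ N)
    (hi : i ≤ 2 * t) (hi2 : i ≤ N) (h : 100 * 2 ^ d' < 3 ^ (2 * (N - i) + g)) :
    3 * d' + 10 * i ≤ 10 * (N - N') := by
  have h1 : 2 ^ (5 * (d' + 6)) < 2 ^ (8 * (2 * (N - i) + g)) := by
    calc 2 ^ (5 * (d' + 6)) = (64 * 2 ^ d') ^ 5 := by
          rw [mul_comm 5, pow_mul, pow_add]; ring_nf
      _ ≤ (100 * 2 ^ d') ^ 5 := Nat.pow_le_pow_left (Nat.mul_le_mul_right _ (by norm_num)) 5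
      _ < (3 ^ (2 * (N - i) + g)) ^ 5 := Nat.pow_lt_pow_left h (by norm_num)
      _ = (3 ^ 5) ^ (2 * (N - i) + g) := by rw [← pow_mul, ← pow_mul, mul_comm]
      _ ≤ (2 ^ 8) ^ (2 * (N - i) + g) := Nat.pow_le_pow_left (by norm_num) _
      _ = 2 ^ (8 * (2 * (N - i) + g)) := by rw [← pow_mul]
  have h2 := (Nat.pow_lt_pow_iff_right (by norm_num : 1 < 2)).mp h1
  omega

/-- scale recursion (1.7) -/
theorem scale_step {δ : ℝ} (hδ : 0 < δ) (hS : ∃ h, S h δ) :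
    ∃ N0 : ℕ, ∀ N : ℕ, N0 ≤ N → ∀ g : ℕ, 25 * g ≤ N → 1 ≤ g → ∀ B : ℕ, 4 ≤ B → ∀ Q : ℕ,
      Odd Q → Q ≤ 3 ^ g → ∀ u0 : ℤ, ¬ (Q : ℤ) ∣ u0 → ∀ j l : ℕ, G Q u0 (2 * j + 2 * N) B (N - (N + 63) / 64) j l ≤ δ := by
  obtain ⟨h, hS⟩ := hS
  have hc0 := c0_pos
  have hc1 := c0_lt_one
  set p : ℝ := c0 / 4 * (1 / 2) ^ (h + 1) with hp
  have hhalf : (1 / 2 : ℝ) ^ (h + 1) ≤ 1 := pow_le_one₀ (by norm_num) (by norm_num)
  have hhalf0 : (0 : ℝ) < (1 / 2 : ℝ) ^ (h + 1) := by positivity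
  have hp0 : 0 < p := by positivity
  have hp1 : p ≤ 1 / 4 := by nlinarith
  obtain ⟨t0, ht0⟩ : ∃ t0 : ℕ, (1 - p) ^ t0 < δ :=
    exists_pow_lt_of_lt_one hδ (by linarith)
  refine ⟨16 * t0 + 16, fun N hN g hg hg1 B hB Q hQ hQg u0 hu0 j l => ?_⟩
  have h1 := lemW_inf hS hδ.le hB hQ hu0 (2 * j + 2 * N) (N / 16) (N - (N + 63) / 64) j l
    (by omega) (by omega) ?_
  · refine h1.trans (max_le le_rfl ?_)
    refine le_trans ?_ ht0.le
    apply pow_le_pow_of_le_one (by linarith) (by linarith)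
    omega
  · intro i hi l' u d' hu1 hu2 hu3
    have e : 2 * j + 2 * N - 2 * (j + i) = 2 * (N - i) := by omega
    rw [e] at hu1 hu2
    have hne : u ≠ 0 := by
      rintro rfl
      apply hu0
      have h3 : (Q : ℤ) ∣ 2 ^ l' * 0 - u0 := (Dvd.intro _ rfl).trans hu2
      simpa using h3
    apply deep_arith hg (Nat.mul_div_le _ _) (Nat.mul_div_le _ _) hi (by omega)
    have h4 : (2 : ℤ) ^ d' ≤ |u| := Int.le_of_dvd (abs_pos.mpr hne) ((dvd_abs _ _).mpr hu3)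
    have h6 : (Q : ℤ) * 3 ^ (2 * (N - i)) ≤ 3 ^ (2 * (N - i) + g) := by
      rw [pow_add, mul_comm]
      apply mul_le_mul_of_nonneg_left _ (by positivity)
      exact_mod_cast hQg
    have h5 : (100 : ℤ) * 2 ^ d' < 3 ^ (2 * (N - i) + g) := by linarith
    exact_mod_cast h5

/-- 1.7: polynomial decay of `G`, with a gap `g` -/
theorem G_decay (hS : ∀ δ : ℝ, 0 < δ → ∃ h, S h δ) (κ : ℕ) :
    ∃ C : ℝ, 0 < C ∧ ∀ N g B Q : ℕ, 1 ≤ N → 1 ≤ g → 4 ≤ B → Odd Q → Q ≤ 3 ^ g →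
      ∀ u0 : ℤ, ¬ (Q : ℤ) ∣ u0 → ∀ j l : ℕ, G Q u0 (2 * j + 2 * N) B N j l ≤ C * ((g : ℝ) / N) ^ κ := by
  obtain ⟨N0, hN0⟩ := scale_step (δ := (1 / 64 : ℝ) ^ κ) (by positivity) (hS _ (by positivity))
  refine ⟨((N0 : ℝ) + 25) ^ κ, by positivity, ?_⟩
  intro N
  induction N using Nat.strong_induction_on with
  | _ N ih =>
  intro g B Q hN hg hB hQ hQg u0 hu0 j l
  by_cases hbig : N0 ≤ N ∧ 25 * g ≤ N
  · obtain ⟨h1, h2⟩ := hbig
    set N' := (N + 63) / 64 with hN'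
    have h3 : 64 * N' ≤ N + 63 := Nat.mul_div_le _ _
    have h4 : N ≤ 64 * N' := by omega
    have h5 := hN0 N h1 g h2 hg B hB Q hQ hQg u0 hu0 j l
    rw [← hN'] at h5
    have h6 : ∀ l', G Q u0 (2 * j + 2 * N) B N' (j + (N - N')) l' ≤
        ((N0 : ℝ) + 25) ^ κ * ((g : ℝ) / N') ^ κ := by
      intro l'
      have := ih N' (by omega) g B Q (by omega) hg hB hQ hQg u0 hu0 (j + (N - N')) l'
      rwa [show 2 * (j + (N - N')) + 2 * N' = 2 * j + 2 * N by omega] at this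
    have h7 := G_mul Q u0 (2 * j + 2 * N) B N' (N - N') j l h6
    rw [show N - N' + N' = N by omega] at h7
    refine h7.trans ?_
    have hN'pos : (0 : ℝ) < N' := by exact_mod_cast (by omega : 0 < N')
    have hNpos : (0 : ℝ) < N := by exact_mod_cast hN
    calc _ ≤ (1 / 64 : ℝ) ^ κ * (((N0 : ℝ) + 25) ^ κ * ((g : ℝ) / N') ^ κ) :=
          mul_le_mul_of_nonneg_right h5 (by positivity)
      _ = ((N0 : ℝ) + 25) ^ κ * ((1 / 64) * ((g : ℝ) / N')) ^ κ := by rw [mul_pow (1 / 64 : ℝ)]; ring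
      _ ≤ ((N0 : ℝ) + 25) ^ κ * ((g : ℝ) / N) ^ κ := by
          apply mul_le_mul_of_nonneg_left _ (by positivity)
          apply pow_le_pow_left₀ (by positivity)
          rw [div_mul_div_comm, one_mul]
          apply div_le_div_of_nonneg_left (by positivity) hNpos
          exact_mod_cast h4
  · have hNpos : (0 : ℝ) < N := by exact_mod_cast hN
    have h1 : (1 : ℝ) ≤ ((N0 : ℝ) + 25) * ((g : ℝ) / N) := by
      rw [← mul_div_assoc, le_div_iff₀ hNpos, one_mul]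
      have hg' : (1 : ℝ) ≤ g := by exact_mod_cast hg
      rw [not_and_or, not_le, not_le] at hbig
      rcases hbig with h | h
      · have : (N : ℝ) ≤ N0 := by exact_mod_cast h.le
        nlinarith [Nat.cast_nonneg (α := ℝ) N0]
      · have : (N : ℝ) ≤ 25 * g := by exact_mod_cast h.le
        nlinarith [Nat.cast_nonneg (α := ℝ) N0]
    calc _ ≤ (1 : ℝ) := G_le_one _ _ _ _ _ _ _
      _ ≤ (((N0 : ℝ) + 25) * ((g : ℝ) / N)) ^ κ := one_le_pow₀ h1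
      _ = _ := by rw [mul_pow]

end Pool.Agent.Lib.KQ
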