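import Pool.Agent.Lib.MP_e43fce_nt_nat.FD
import Pool.Agent.Lib.KQ.Pair
import Pool.Agent.Lib.KQ.W2
import Pool.Agent.Lib.KQ.Deep

/-! QFD: Fourier decay with modulus `Q * 3 ^ (2 * N)`, `Q` odd. -/

set_option autoImplicit false

namespace Pool.Agent.Lib.MP_e43fce_nt_nat

open Finset

/-- (QFD) -/
theorem QFD (B : ℕ) : ∃ C : ℝ, 0 < C ∧ ∀ N g L Q : ℕ, 1 ≤ N → 1 ≤ g → 2 ≤ L → Q % 2 = 1 →
    Q ≤ 3 ^ g → ∀ h : ℤ, ((Q : ℤ) * 3 ^ (2 * N)) ∣ 2 * h - 1 → ∀ η : ℤ, ¬ ((Q : ℤ) ∣ η) →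
      ∀ ψ : ℕ → ℂ, (∀ A, ‖ψ A‖ ≤ 1) →
      ‖∑ q ∈ words L (2 * N), (pr q : ℂ) * ψ q.sum *
          ee (-((η * h ^ q.sum * (F q : ℤ) : ℤ) : ℝ) / (Q * 3 ^ (2 * N)))‖
        ≤ C * ((g : ℝ) / N) ^ B := by
  obtain ⟨C, hC, hmain⟩ := KQ.G_decay KQ.deep B
  refine ⟨C, hC, ?_⟩
  intro N g L Q hN hg hL hQodd hQg h hh η hη ψ hψ
  have hQ0 : 0 < Q := by omega
  have hcop : IsCoprime (Q : ℤ) h := by
    obtain ⟨k, hk⟩ := hh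
    refine ⟨-(3 ^ (2 * N) * k), 2, ?_⟩
    linear_combination hk
  have h3 : ¬ (Q : ℤ) ∣ h ^ 2 * η := by
    intro hcon
    exact hη ((hcop.pow_right).dvd_of_dvd_mul_left hcon)
  have h7 := KQ.pair Q hQ0 η h (2 * N) L N hh le_rfl ψ hψ
  have h8 := hmain N g (2 * L) Q hN hg (by omega) (Nat.odd_iff.mpr hQodd) hQg (h ^ 2 * η) h3 0 0
  rw [show 2 * 0 + 2 * N = 2 * N by omega] at h8
  refine le_trans (le_of_eq ?_) (h7.trans h8)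
  rw [sum_words_eq_WS]
  congr 1
  apply KD38.WS_congr
  intro w
  rw [F_eq, ee_eq, pr]
  have e1 : (((1 : ℝ) / 2 ^ w.sum : ℝ) : ℂ) = (1 / 2 : ℂ) ^ w.sum := by
    push_cast
    rw [one_div, one_div, inv_pow]
  have e2 : (-((η * h ^ w.sum * (KD38.F w : ℤ) : ℤ) : ℝ) / (Q * 3 ^ (2 * N))) =
      (((-(η * (h ^ w.sum * KD38.F w)) : ℤ) : ℝ) / ((Q * 3 ^ (2 * N) : ℕ) : ℝ)) := by
    push_cast
    ring
  rw [e1, e2]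
  ring

end Pool.Agent.Lib.MP_e43fce_nt_nat
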