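import Mathlib

set_option autoImplicit false

namespace Pool.Agent.Lib.KQ

open Finset

/-- black point -/
def Black (Q : ℕ) (u0 : ℤ) (r j l : ℕ) : Prop :=
  ∃ u : ℤ, 100 * |u| < Q * 3 ^ (r - 2 * j) ∧ (Q : ℤ) * 3 ^ (r - 2 * j) ∣ 2 ^ l * u - u0

/-- gain at a white point -/
noncomputable def c0 : ℝ := 1 - Real.cos (Real.pi / 100)

/-- law of a sum of two geometric letters -/
noncomputable def Pb (b : ℕ) : ℝ := ((b : ℝ) - 1) / 2 ^ b

open Classical in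
/-- the majorant -/
noncomputable def G (Q : ℕ) (u0 : ℤ) (r B : ℕ) : ℕ → ℕ → ℕ → ℝ
  | 0, _, _ => 1
  | n + 1, j, l => ∑ b ∈ Finset.Icc 2 B,
      Pb b * (if b = 3 ∧ ¬ Black Q u0 r j l then 1 - c0 else 1) * G Q u0 r B n (j + 1) (l + b)

/-- deep start -/
def S (h : ℕ) (q : ℝ) : Prop :=
  ∀ Q : ℕ, Odd Q → ∀ B : ℕ, 4 ≤ B → ∀ (u0 c : ℤ) (d n r : ℕ), u0 = 2 ^ d * c → Odd c →
    ¬ (Q : ℤ) ∣ c → 100 * |u0| < Q * 3 ^ r → h ≤ d → 3 * d ≤ 10 * n → 2 * n ≤ r →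
    G Q u0 r B n 0 0 ≤ q

theorem c0_pos : 0 < c0 := by
  unfold c0
  have hpi := Real.pi_pos
  have h := Real.cos_lt_cos_of_nonneg_of_le_pi (x := 0) (y := Real.pi / 100) le_rfl
    (by linarith) (by linarith)
  rw [Real.cos_zero] at h
  linarith

theorem c0_lt_one : c0 < 1 := by
  unfold c0
  have : 0 < Real.cos (Real.pi / 100) := by
    apply Real.cos_pos_of_mem_Ioo
    constructor <;> [have := Real.pi_pos; have := Real.pi_pos] <;> linarith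
  linarith

theorem Pb_nonneg {b : ℕ} (hb : 1 ≤ b) : 0 ≤ Pb b := by
  unfold Pb
  have : (1 : ℝ) ≤ b := by exact_mod_cast hb
  apply div_nonneg
  · linarith
  · positivity

theorem sum_Pb (B : ℕ) (hB : 1 ≤ B) :
    ∑ b ∈ Finset.Icc 2 B, Pb b = 1 - ((B : ℝ) + 1) / 2 ^ B := by
  induction B, hB using Nat.le_induction with
  | base => simp
  | succ B hB ih =>
    rw [Finset.sum_Icc_succ_top (by omega), ih]
    unfold Pb
    push_cast
    rw [pow_succ]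
    field_simp
    ring

theorem sum_Pb_le (B : ℕ) : ∑ b ∈ Finset.Icc 2 B, Pb b ≤ 1 := by
  rcases Nat.lt_or_ge B 1 with h | h
  · have : B = 0 := by omega
    subst this; simp
  · rw [sum_Pb B h]
    have : (0 : ℝ) ≤ ((B : ℝ) + 1) / 2 ^ B := by positivity
    linarith

theorem sum_Pb_w (B : ℕ) (hB : 1 ≤ B) :
    ∑ b ∈ Finset.Icc 2 B, Pb b * (3 / 2 : ℝ) ^ b = 9 - 3 * (3 / 4 : ℝ) ^ B * ((B : ℝ) + 3) := by
  induction B, hB using Nat.le_induction with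
  | base => simp; norm_num
  | succ B hB ih =>
    rw [Finset.sum_Icc_succ_top (by omega), ih]
    unfold Pb
    push_cast
    have h1 : (3 / 4 : ℝ) ^ (B + 1) = (3 / 2 : ℝ) ^ (B + 1) / 2 ^ (B + 1) := by
      rw [← div_pow]; norm_num
    have h2 : ((B : ℝ) + 1 - 1) / 2 ^ (B + 1) * (3 / 2 : ℝ) ^ (B + 1) =
        (B : ℝ) * (3 / 4 : ℝ) ^ (B + 1) := by
      rw [h1]; ring
    rw [h2, pow_succ]
    ring

theorem sum_Pb_w_le (B : ℕ) : ∑ b ∈ Finset.Icc 2 B, Pb b * (3 / 2 : ℝ) ^ b ≤ 9 := by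
  rcases Nat.lt_or_ge B 1 with h | h
  · have : B = 0 := by omega
    subst this; simp
  · rw [sum_Pb_w B h]
    have : (0 : ℝ) ≤ 3 * (3 / 4 : ℝ) ^ B * ((B : ℝ) + 3) := by positivity
    linarith

theorem kap_nonneg (p : Prop) [Decidable p] : 0 ≤ (if p then 1 - c0 else (1 : ℝ)) := by
  split_ifs
  · have := c0_lt_one; linarith
  · norm_num

theorem kap_le (p : Prop) [Decidable p] : (if p then 1 - c0 else (1 : ℝ)) ≤ 1 := by
  split_ifs
  · have := c0_pos; linarith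
  · norm_num

open Classical in
theorem G_nonneg (Q : ℕ) (u0 : ℤ) (r B : ℕ) : ∀ n j l : ℕ, 0 ≤ G Q u0 r B n j l
  | 0, _, _ => by simp [G]
  | n + 1, j, l => by
    rw [G]
    apply Finset.sum_nonneg
    intro b hb
    rw [Finset.mem_Icc] at hb
    exact mul_nonneg (mul_nonneg (Pb_nonneg (by omega)) (kap_nonneg _)) (G_nonneg Q u0 r B n _ _)

open Classical in
theorem G_succ_le (Q : ℕ) (u0 : ℤ) (r B n j l : ℕ) :
    G Q u0 r B (n + 1) j l ≤ ∑ b ∈ Finset.Icc 2 B, Pb b * G Q u0 r B n (j + 1) (l + b) := by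
  rw [G]
  apply Finset.sum_le_sum
  intro b hb
  rw [Finset.mem_Icc] at hb
  have h1 := Pb_nonneg (b := b) (by omega)
  have h2 := G_nonneg Q u0 r B n (j + 1) (l + b)
  have h3 : (if b = 3 ∧ ¬ Black Q u0 r j l then 1 - c0 else (1 : ℝ)) ≤ 1 := kap_le _
  apply mul_le_mul_of_nonneg_right _ h2
  calc _ ≤ Pb b * 1 := mul_le_mul_of_nonneg_left (by convert h3) h1
    _ = Pb b := mul_one _

theorem G_le_one (Q : ℕ) (u0 : ℤ) (r B : ℕ) : ∀ n j l : ℕ, G Q u0 r B n j l ≤ 1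
  | 0, _, _ => by simp [G]
  | n + 1, j, l => by
    refine (G_succ_le Q u0 r B n j l).trans ?_
    calc _ ≤ ∑ b ∈ Finset.Icc 2 B, Pb b * 1 := by
          apply Finset.sum_le_sum
          intro b hb
          rw [Finset.mem_Icc] at hb
          exact mul_le_mul_of_nonneg_left (G_le_one Q u0 r B n _ _) (Pb_nonneg (by omega))
      _ ≤ 1 := by simpa using sum_Pb_le B

open Classical in
/-- white point: the step gains `c0/4` -/
theorem G_white (Q : ℕ) (u0 : ℤ) (r B n j l : ℕ) (hB : 4 ≤ B) (hw : ¬ Black Q u0 r j l) :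
    G Q u0 r B (n + 1) j l ≤ ∑ b ∈ Finset.Icc 2 B, Pb b * G Q u0 r B n (j + 1) (l + b)
      - c0 / 4 * G Q u0 r B n (j + 1) (l + 3) := by
  have h3 : (3 : ℕ) ∈ Finset.Icc 2 B := by rw [Finset.mem_Icc]; omega
  rw [G, ← Finset.add_sum_erase _ _ h3, ← Finset.add_sum_erase _ _ h3]
  have e1 : Pb 3 = 1 / 4 := by unfold Pb; norm_num
  have e2 : ∑ x ∈ (Finset.Icc 2 B).erase 3, Pb x *
      (if x = 3 ∧ ¬ Black Q u0 r j l then 1 - c0 else 1) * G Q u0 r B n (j + 1) (l + x) =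
      ∑ x ∈ (Finset.Icc 2 B).erase 3, Pb x * G Q u0 r B n (j + 1) (l + x) := by
    apply Finset.sum_congr rfl
    intro x hx
    have : x ≠ 3 := Finset.ne_of_mem_erase hx
    simp [this]
  rw [e2]
  simp only [hw, not_false_eq_true, and_self, if_true, e1]
  linarith

theorem cop_two {Q : ℕ} (hQ : Odd Q) (k l : ℕ) : IsCoprime ((Q : ℤ) * 3 ^ k) (2 ^ l) := by
  apply IsCoprime.mul_left
  · apply IsCoprime.pow_right
    obtain ⟨m, hm⟩ := hQ
    refine ⟨1, -m, ?_⟩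
    rw [hm]
    push_cast
    ring
  · apply IsCoprime.pow
    exact ⟨1, -1, by norm_num⟩

theorem Q3_dvd_two_pow_mul_iff {Q : ℕ} (hQ : Odd Q) (k l : ℕ) (x : ℤ) :
    (Q : ℤ) * 3 ^ k ∣ 2 ^ l * x ↔ (Q : ℤ) * 3 ^ k ∣ x := by
  constructor
  · intro h
    exact (cop_two hQ k l).dvd_of_dvd_mul_left h
  · exact fun h => h.mul_left _

theorem Black_shift {Q : ℕ} (hQ : Odd Q) {u0 u : ℤ} {r j l : ℕ}
    (h : (Q : ℤ) * 3 ^ (r - 2 * j) ∣ 2 ^ l * u - u0)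
    (i m : ℕ) : Black Q u0 r (j + i) (l + m) ↔ Black Q u (r - 2 * j) i m := by
  unfold Black
  have e : r - 2 * (j + i) = r - 2 * j - 2 * i := by omega
  rw [e]
  have hd : (Q : ℤ) * 3 ^ (r - 2 * j - 2 * i) ∣ 2 ^ l * u - u0 :=
    (mul_dvd_mul_left _ (pow_dvd_pow 3 (Nat.sub_le _ _))).trans h
  constructor
  · rintro ⟨v, h1, h2⟩
    refine ⟨v, h1, ?_⟩
    rw [← Q3_dvd_two_pow_mul_iff hQ _ l]
    have := dvd_sub h2 hd
    have e2 : (2 ^ (l + m) * v - u0) - (2 ^ l * u - u0) = 2 ^ l * (2 ^ m * v - u) := by ring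
    rwa [e2] at this
  · rintro ⟨v, h1, h2⟩
    refine ⟨v, h1, ?_⟩
    have := dvd_add (h2.mul_left (2 ^ l)) hd
    have e2 : 2 ^ l * (2 ^ m * v - u) + (2 ^ l * u - u0) = 2 ^ (l + m) * v - u0 := by ring
    rwa [e2] at this

/-- SHIFT -/
theorem G_shift' {Q : ℕ} (hQ : Odd Q) {u0 u : ℤ} {r j l B : ℕ}
    (h : (Q : ℤ) * 3 ^ (r - 2 * j) ∣ 2 ^ l * u - u0) :
    ∀ n i m : ℕ, G Q u0 r B n (j + i) (l + m) = G Q u (r - 2 * j) B n i m
  | 0, _, _ => by simp [G]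
  | n + 1, i, m => by
    rw [G, G]
    apply Finset.sum_congr rfl
    intro b _
    have e1 := G_shift' hQ (B := B) h n (i + 1) (m + b)
    rw [show j + i + 1 = j + (i + 1) by ring, show l + m + b = l + (m + b) by ring, e1]
    have e2 := Black_shift hQ h i m
    by_cases hb : Black Q u (r - 2 * j) i m
    · have := e2.mpr hb
      simp [hb, this]
    · have h7 : ¬ Black Q u0 r (j + i) (l + m) := fun hh => hb (e2.mp hh)
      simp [hb, h7]

theorem G_shift {Q : ℕ} (hQ : Odd Q) {u0 u : ℤ} {r j l B : ℕ}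
    (h : (Q : ℤ) * 3 ^ (r - 2 * j) ∣ 2 ^ l * u - u0) (n : ℕ) :
    G Q u0 r B n j l = G Q u (r - 2 * j) B n 0 0 := by
  simpa using G_shift' hQ (B := B) h n 0 0

end Pool.Agent.Lib.KQ
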